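import Pool.Agent.H4.Singer.LuckVanish
import Pool.Agent.H4.Singer.RankInt

/-!
# S11: from the growth of the ranks over a field to the vanishing of the `ℓ²`-kernel

`D₁` is a `c × a` matrix, `D₂` a `b × c` matrix over `ℤ[G]` with `D₂ * D₁ = 0`. If for the finite quotients `P` of `G`
the sum of the ranks of `D₁` and `D₂` over `P` and a field is at least `(c - η) |P|`, then an `ℓ²` row vector `x` with
`x D₁ = 0` and `x D₂ᴴ = 0` is zero.
-/

set_option autoImplicit false
set_option linter.unusedSectionVars false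

open Finset Filter Topology

namespace Pool.Agent.H93.S11

open Pool.Agent.H4.Atiyah Pool.Agent.H4.Singer

/-- the adjoint matrix over the group ring -/
noncomputable def adj {R G : Type} [Semiring R] [Group G] {m n : Type} (A : Matrix m n (MonoidAlgebra R G)) :
    Matrix n m (MonoidAlgebra R G) :=
  Matrix.of fun i j => MonoidAlgebra.ofCoeff ((A j i).coeff.equivMapDomain (Equiv.inv G))

theorem coeff_adj {R G : Type} [Semiring R] [Group G] {m n : Type} (A : Matrix m n (MonoidAlgebra R G)) (i : n) (j : m)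
    (g : G) : (adj A i j).coeff g = (A j i).coeff g⁻¹ := by
  unfold adj
  simp

theorem op_adj {R G : Type} [Semiring R] [Group G] {m n : Type} (A : Matrix m n (MonoidAlgebra R G)) :
    op (adj A) = (op A).transpose := by
  ext ⟨i, g⟩ ⟨j, h⟩
  rw [Matrix.transpose_apply]
  show (adj A i j).coeff (g⁻¹ * h) = (A j i).coeff (h⁻¹ * g)
  rw [coeff_adj, mul_inv_rev, inv_inv]

open scoped ComplexOrder in
/-- the ranks of two matrices with product zero add up in the matrix of the harmonic equations -/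
theorem rank_add_le {l m n : Type} [Fintype l] [Fintype m] [Fintype n] (M : Matrix m n ℂ) (N : Matrix l m ℂ)
    (h : N * M = 0) : M.rank + N.rank ≤ (Matrix.fromCols M N.conjTranspose).rank := by
  classical
  have h1 : LinearMap.range M.mulVecLin ⊔ LinearMap.range N.conjTranspose.mulVecLin ≤
      LinearMap.range (Matrix.fromCols M N.conjTranspose).mulVecLin := by
    refine sup_le ?_ ?_
    · rintro _ ⟨v, rfl⟩
      refine ⟨Sum.elim v 0, ?_⟩
      rw [Matrix.mulVecLin_apply, Matrix.mulVecLin_apply, Matrix.fromCols_mulVec_sumElim, Matrix.mulVec_zero, add_zero]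
    · rintro _ ⟨v, rfl⟩
      refine ⟨Sum.elim 0 v, ?_⟩
      rw [Matrix.mulVecLin_apply, Matrix.mulVecLin_apply, Matrix.fromCols_mulVec_sumElim, Matrix.mulVec_zero, zero_add]
  have h2 : LinearMap.range M.mulVecLin ⊓ LinearMap.range N.conjTranspose.mulVecLin = ⊥ := by
    rw [Submodule.eq_bot_iff]
    rintro _ ⟨⟨v, hv⟩, ⟨w, rfl⟩⟩
    rw [Matrix.mulVecLin_apply] at hv ⊢
    have h3 : N.mulVec (N.conjTranspose.mulVec w) = 0 := by
      rw [← Matrix.mulVecLin_apply N.conjTranspose, ← hv, Matrix.mulVec_mulVec, h, Matrix.zero_mulVec]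
    rw [Matrix.mulVec_mulVec] at h3
    exact (Matrix.self_mul_conjTranspose_mulVec_eq_zero N w).1 h3
  have h4 := Submodule.finrank_sup_add_finrank_inf_eq (LinearMap.range M.mulVecLin)
    (LinearMap.range N.conjTranspose.mulVecLin)
  rw [h2, finrank_bot, add_zero] at h4
  have h5 : N.rank = N.conjTranspose.rank := (Matrix.rank_conjTranspose N).symm
  rw [h5]
  unfold Matrix.rank
  rw [← h4]
  exact Submodule.finrank_mono h1

theorem toC_adj {G m n : Type} [Group G] (A : Matrix m n (MonoidAlgebra ℤ G)) : toC (adj A) = Astar (toC A) := by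
  ext i j g
  unfold toC Astar
  rw [Matrix.map_apply, Matrix.of_apply, astar_coeff, Matrix.map_apply]
  simp [coeff_adj]

/-- **From the growth of the ranks to the `ℓ²`-kernel** -/
theorem l2_of_ranks {G : Type} [Group G] [DecidableEq G] {P : ℕ → Type} [∀ j, Group (P j)] [∀ j, Fintype (P j)]
    (π : ∀ j, G →* P j) (hπ : ∀ g : G, g ≠ 1 → ∀ᶠ j in atTop, π j g ≠ 1) (F : Type) [Field F] {a b c : ℕ}
    (D₁ : Matrix (Fin c) (Fin a) (MonoidAlgebra ℤ G)) (D₂ : Matrix (Fin b) (Fin c) (MonoidAlgebra ℤ G))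
    (hD : D₂ * D₁ = 0)
    (hr : ∀ η > (0 : ℝ), ∀ᶠ j in atTop, (c - η) * Fintype.card (P j) ≤
      (((op (D₁.map (MonoidAlgebra.mapDomainRingHom ℤ (π j)))).map (Int.cast : ℤ → F)).rank : ℝ) +
      ((op (D₂.map (MonoidAlgebra.mapDomainRingHom ℤ (π j)))).map (Int.cast : ℤ → F)).rank) :
    ∀ x ∈ l2ker (toC ((Matrix.fromCols D₁ (adj D₂)).submatrix id finSumFinEquiv.symm)), x = 0 := by
  classical
  refine l2ker_trivial π hπ _ fun η hη => ?_
  filter_upwards [hr η hη] with j hj
  have h1 := rank_int_le (op (D₁.map (MonoidAlgebra.mapDomainRingHom ℤ (π j)))) F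
  have h2 := rank_int_le (op (D₂.map (MonoidAlgebra.mapDomainRingHom ℤ (π j)))) F
  rw [← op_toC] at h1 h2
  have h3 : op ((toC D₂).map (MonoidAlgebra.mapDomainRingHom ℂ (π j))) *
      op ((toC D₁).map (MonoidAlgebra.mapDomainRingHom ℂ (π j))) = 0 := by
    rw [← op_mul, ← Matrix.map_mul]
    have h4 : toC D₂ * toC D₁ = toC (D₂ * D₁) := by
      unfold toC
      rw [Matrix.map_mul]
    rw [h4, hD]
    ext x y
    simp [op, toC]
  have h4 := rank_add_le _ _ h3
  have h5 : op ((toC ((Matrix.fromCols D₁ (adj D₂)).submatrix id finSumFinEquiv.symm)).map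
      (MonoidAlgebra.mapDomainRingHom ℂ (π j))) =
      (Matrix.fromCols (op ((toC D₁).map (MonoidAlgebra.mapDomainRingHom ℂ (π j))))
        (op ((toC D₂).map (MonoidAlgebra.mapDomainRingHom ℂ (π j)))).conjTranspose).submatrix (Equiv.refl _)
        (((finSumFinEquiv (m := a) (n := b)).symm.prodCongr (Equiv.refl (P j))).trans
          (Equiv.sumProdDistrib (Fin a) (Fin b) (P j))) := by
    rw [← op_astar, ← Astar_map, ← toC_adj]
    ext ⟨i, g⟩ ⟨k, h⟩
    obtain ⟨k, rfl⟩ := (finSumFinEquiv (m := a) (n := b)).surjective k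
    rw [Matrix.submatrix_apply]
    rcases k with k | k
    · simp [op, toC]
    · simp [op, toC]
  rw [h5, Matrix.rank_submatrix]
  have h6 : (((op ((toC D₁).map (MonoidAlgebra.mapDomainRingHom ℂ (π j)))).rank : ℝ) +
      (op ((toC D₂).map (MonoidAlgebra.mapDomainRingHom ℂ (π j)))).rank) ≤
      (Matrix.fromCols (op ((toC D₁).map (MonoidAlgebra.mapDomainRingHom ℂ (π j))))
        (op ((toC D₂).map (MonoidAlgebra.mapDomainRingHom ℂ (π j)))).conjTranspose).rank := by
    exact_mod_cast h4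
  have h7 : (((op (D₁.map (MonoidAlgebra.mapDomainRingHom ℤ (π j)))).map (Int.cast : ℤ → F)).rank : ℝ) ≤
      (op ((toC D₁).map (MonoidAlgebra.mapDomainRingHom ℂ (π j)))).rank := by exact_mod_cast h1
  have h8 : (((op (D₂.map (MonoidAlgebra.mapDomainRingHom ℤ (π j)))).map (Int.cast : ℤ → F)).rank : ℝ) ≤
      (op ((toC D₂).map (MonoidAlgebra.mapDomainRingHom ℂ (π j)))).rank := by exact_mod_cast h2
  linarith

end Pool.Agent.H93.S11
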