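import Pool.Agent.H93.S11.Rk
import Pool.Agent.H20.GR.Growth

/-!
# S11: the sequence of finite two-groups for Lück approximation

`Grows K A r` is the conclusion of `Pool.Agent.H20.GR.growth`. For a residually finite-two group `H` and `D₂ * D₁ = 0`
with `Grows K D₁ r₁`, `Grows K D₂ r₂`, `c ≤ r₁ + r₂`: the `ℓ²`-kernel of the harmonic equations is zero.
-/

set_option autoImplicit false
set_option linter.unusedSectionVars false

open Finset Filter Topology

namespace Pool.Agent.H93.S11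

open Pool.Agent.H4.Atiyah Pool.Agent.H4.Singer

/-- the ranks over suitable finite two-groups are at least `r`, up to `ε` (the conclusion of
`Pool.Agent.H20.GR.growth`) -/
def Grows (K : Type) [Field K] {H : Type} [Group H] {a c : ℕ} (A : Matrix (Fin a) (Fin c) (MonoidAlgebra K H))
    (r : ℕ) : Prop :=
  ∀ ε : ℝ, 0 < ε → ∃ (P : Type) (_ : Group P) (_ : Fintype P), IsPGroup 2 P ∧ ∃ π : H →* P,
    ∀ (P' : Type) [Group P'] [Fintype P'], IsPGroup 2 P' → ∀ π' : H →* P',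
      ((r : ℝ) - ε) * Fintype.card (P × P') ≤
        ((op (A.map (MonoidAlgebra.mapDomainRingHom K (π.prod π')))).rank : ℝ)

theorem grows_of_box {H G : Type} [Group H] [Group G] (φ : H →* G) (hG : Pool.Agent.H20.GR.FBox G) {K : Type} [Field K]
    [CharP K 2] {a c : ℕ} (A : Matrix (Fin a) (Fin c) (MonoidAlgebra K H)) {r : ℕ} (rows : Fin r → Fin a)
    (cols : Fin r → Fin c)
    (hinj : ∀ v : Fin r → MonoidAlgebra K G,
      Matrix.vecMul v ((A.submatrix rows cols).map (MonoidAlgebra.mapDomainRingHom K φ)) = 0 → v = 0) :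
    Grows K A r := fun _ hε => Pool.Agent.H20.GR.growth φ hG A rows cols hinj hε

/-- the matrix of an integer matrix over a field -/
noncomputable def toK (K : Type) [Field K] {H m n : Type} [Group H] (A : Matrix m n (MonoidAlgebra ℤ H)) :
    Matrix m n (MonoidAlgebra K H) :=
  A.map (MonoidAlgebra.mapRingHom H (Int.castRingHom K))

theorem op_toK {K : Type} [Field K] {H P : Type} [Group H] [Group P] {m n : Type} (π : H →* P)
    (A : Matrix m n (MonoidAlgebra ℤ H)) :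
    op ((toK K A).map (MonoidAlgebra.mapDomainRingHom K π)) =
      (op (A.map (MonoidAlgebra.mapDomainRingHom ℤ π))).map (Int.cast : ℤ → K) := by
  classical
  ext ⟨i, g⟩ ⟨j, h⟩
  show (Finsupp.mapDomain π (MonoidAlgebra.mapRingHom H (Int.castRingHom K) (A i j)).coeff)
      (g⁻¹ * h) = ((Finsupp.mapDomain π (A i j).coeff (g⁻¹ * h) : ℤ) : K)
  have h1 : (MonoidAlgebra.mapRingHom H (Int.castRingHom K) (A i j)).coeff =
      Finsupp.mapRange (Int.cast : ℤ → K) Int.cast_zero (A i j).coeff := rfl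
  rw [h1, Finsupp.mapDomain_mapRange _ _ _ _ (fun x y => Int.cast_add x y),
    Finsupp.mapRange_apply]

/-- isomorphic finite groups -/
theorem rank_op_equiv {K : Type} [Field K] {H P Q : Type} [Group H] [Group P] [Group Q] [Fintype P] [Fintype Q]
    {m n : Type} [Fintype m] [Fintype n] (e : P ≃* Q) (π : H →* P) (ρ : H →* Q) (he : ∀ h, e (π h) = ρ h)
    (A : Matrix m n (MonoidAlgebra K H)) :
    (op (A.map (MonoidAlgebra.mapDomainRingHom K π))).rank =
      (op (A.map (MonoidAlgebra.mapDomainRingHom K ρ))).rank := by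
  classical
  have h1 : op (A.map (MonoidAlgebra.mapDomainRingHom K π)) =
      (op (A.map (MonoidAlgebra.mapDomainRingHom K ρ))).submatrix ((Equiv.refl m).prodCongr e.toEquiv)
        ((Equiv.refl n).prodCongr e.toEquiv) := by
    ext ⟨i, g⟩ ⟨j, h⟩
    show (Finsupp.mapDomain π (A i j).coeff) (g⁻¹ * h) = (Finsupp.mapDomain ρ (A i j).coeff) ((e g)⁻¹ * e h)
    have h2 : (ρ : H → Q) = e ∘ π := funext fun x => (he x).symm
    rw [h2, Finsupp.mapDomain_comp, ← map_inv, ← map_mul]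
    exact (Finsupp.mapDomain_apply e.injective _ _).symm
  rw [h1, Matrix.rank_submatrix]

theorem isPGroup_prod {P Q : Type} [Group P] [Group Q] (hP : IsPGroup 2 P) (hQ : IsPGroup 2 Q) :
    IsPGroup 2 (P × Q) := by
  rintro ⟨x, y⟩
  obtain ⟨k1, hk1⟩ := hP x
  obtain ⟨k2, hk2⟩ := hQ y
  refine ⟨k1 + k2, ?_⟩
  rw [Prod.pow_mk, pow_add, pow_mul, hk1, one_pow, mul_comm, pow_mul, hk2, one_pow]
  rfl

/-- residually finite-two from normal subgroups of index a power of two -/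
theorem resid_of_subgroups {H : Type} [Group H]
    (h : ∀ x : H, x ≠ 1 → ∃ W : Subgroup H, W.Normal ∧ (∃ k : ℕ, W.index = 2 ^ k) ∧ x ∉ W) (x : H) (hx : x ≠ 1) :
    ∃ (P : Type) (_ : Group P) (_ : Fintype P), IsPGroup 2 P ∧ ∃ π : H →* P, π x ≠ 1 := by
  obtain ⟨W, hW, ⟨k, hk⟩, hxW⟩ := h x hx
  have h1 : W.index ≠ 0 := by
    rw [hk]
    positivity
  have : W.FiniteIndex := ⟨h1⟩
  have : Finite (H ⧸ W) := inferInstance
  refine ⟨H ⧸ W, inferInstance, Fintype.ofFinite _, IsPGroup.of_card (n := k) ?_, QuotientGroup.mk' W, fun h2 => ?_⟩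
  · rw [← hk]
    rfl
  · exact hxW ((QuotientGroup.eq_one_iff x).1 h2)

/-- finite products of residual quotients -/
theorem exists_resid {H : Type} [Group H] [Countable H]
    (hres : ∀ x : H, x ≠ 1 → ∃ (P : Type) (_ : Group P) (_ : Fintype P), IsPGroup 2 P ∧ ∃ π : H →* P, π x ≠ 1) :
    ∃ (R : ℕ → Type) (_ : ∀ j, Group (R j)) (_ : ∀ j, Fintype (R j)) (ρ : ∀ j, H →* R j),
      (∀ j, IsPGroup 2 (R j)) ∧ ∀ x : H, x ≠ 1 → ∀ᶠ j in atTop, ρ j x ≠ 1 := by
  classical
  have htot : ∀ x : H, ∃ (P : Type) (_ : Group P) (_ : Fintype P), IsPGroup 2 P ∧ ∃ π : H →* P,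
      x ≠ 1 → π x ≠ 1 := by
    intro x
    by_cases hx : x = 1
    · exact ⟨PUnit, inferInstance, inferInstance, fun g => ⟨0, rfl⟩, 1, fun h => absurd hx h⟩
    · obtain ⟨P, g, f, hP, π, hπ⟩ := hres x hx
      exact ⟨P, g, f, hP, π, fun _ => hπ⟩
  choose Q gQ fQ hQ π hπ using htot
  obtain ⟨x, hx⟩ := exists_surjective_nat H
  refine ⟨fun j => ∀ i : Fin j, Q (x i), fun j => inferInstance, fun j => inferInstance,
    fun j => MonoidHom.pi fun i => π (x i), fun j f => ?_, fun g hg => ?_⟩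
  · choose k hk using fun i : Fin j => hQ (x i) (f i)
    refine ⟨∑ i, k i, funext fun i => ?_⟩
    rw [Pi.pow_apply, Pi.one_apply]
    have h1 : k i ≤ ∑ i, k i := Finset.single_le_sum (fun _ _ => Nat.zero_le _) (Finset.mem_univ i)
    obtain ⟨l, hl⟩ := Nat.exists_eq_add_of_le h1
    rw [hl, pow_add, pow_mul, hk, one_pow]
  · obtain ⟨n, rfl⟩ := hx g
    filter_upwards [eventually_gt_atTop n] with j hj hcon
    exact hπ (x n) hg (congrFun hcon ⟨n, hj⟩)

/-- **Vanishing of the `ℓ²`-kernel from the growth of the ranks.** -/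
theorem l2_of_grows {H : Type} [Group H] [Countable H] [DecidableEq H]
    (hres : ∀ x : H, x ≠ 1 → ∃ (P : Type) (_ : Group P) (_ : Fintype P), IsPGroup 2 P ∧ ∃ π : H →* P, π x ≠ 1)
    (K : Type) [Field K] {a b c : ℕ} (D₁ : Matrix (Fin c) (Fin a) (MonoidAlgebra ℤ H))
    (D₂ : Matrix (Fin b) (Fin c) (MonoidAlgebra ℤ H)) (hD : D₂ * D₁ = 0) {r₁ r₂ : ℕ}
    (h₁ : Grows K (toK K D₁) r₁) (h₂ : Grows K (toK K D₂) r₂) (hc : c ≤ r₁ + r₂) :
    ∀ x ∈ l2ker (toC ((Matrix.fromCols D₁ (adj D₂)).submatrix id finSumFinEquiv.symm)), x = 0 := by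
  classical
  obtain ⟨R, _, _, ρ, hR, hρ⟩ := exists_resid hres
  have hε : ∀ j : ℕ, (0 : ℝ) < 1 / (j + 1) := fun j => by positivity
  choose P₁ g₁ f₁ hp₁ π₁ hg₁ using fun j : ℕ => h₁ (1 / (j + 1)) (hε j)
  choose P₂ g₂ f₂ hp₂ π₂ hg₂ using fun j : ℕ => h₂ (1 / (j + 1)) (hε j)
  refine l2_of_ranks (P := fun j => P₁ j × (P₂ j × R j)) (fun j => (π₁ j).prod ((π₂ j).prod (ρ j))) ?_ K D₁ D₂ hD ?_
  · intro g hg
    filter_upwards [hρ g hg] with j hj hcon
    exact hj (congrArg (fun x => x.2.2) hcon)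
  · intro η hη
    have h3 : ∀ᶠ j : ℕ in atTop, (1 : ℝ) / (j + 1) ≤ η / 2 :=
      (tendsto_one_div_add_atTop_nhds_zero_nat (𝕜 := ℝ)).eventually (ge_mem_nhds (by positivity))
    filter_upwards [h3] with j hj
    have e1 := hg₁ j (P₂ j × R j) (isPGroup_prod (hp₂ j) (hR j)) ((π₂ j).prod (ρ j))
    have e2 := hg₂ j (P₁ j × R j) (isPGroup_prod (hp₁ j) (hR j)) ((π₁ j).prod (ρ j))
    let e : P₂ j × (P₁ j × R j) ≃* P₁ j × (P₂ j × R j) :=
      { toFun := fun x => (x.2.1, (x.1, x.2.2))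
        invFun := fun x => (x.2.1, (x.1, x.2.2))
        left_inv := fun x => rfl
        right_inv := fun x => rfl
        map_mul' := fun x y => rfl }
    rw [rank_op_equiv e ((π₂ j).prod ((π₁ j).prod (ρ j))) ((π₁ j).prod ((π₂ j).prod (ρ j))) (fun h => rfl),
      Fintype.card_congr e.toEquiv] at e2
    rw [op_toK] at e1 e2
    have h4 : (0 : ℝ) ≤ Fintype.card (P₁ j × (P₂ j × R j)) := Nat.cast_nonneg _
    have h5 : (c : ℝ) ≤ r₁ + r₂ := by exact_mod_cast hc
    have h6 : ((c : ℝ) - η) * Fintype.card (P₁ j × (P₂ j × R j)) ≤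
        ((r₁ : ℝ) - 1 / (j + 1)) * Fintype.card (P₁ j × (P₂ j × R j)) +
        ((r₂ : ℝ) - 1 / (j + 1)) * Fintype.card (P₁ j × (P₂ j × R j)) := by
      rw [← add_mul]
      exact mul_le_mul_of_nonneg_right (by linarith) h4
    linarith

end Pool.Agent.H93.S11
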